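import Pool.Agent.W886.VL.Stm

/-!
# VL-HH: the sets `HH M`
-/

namespace Pool.Agent.W928.VL.HH

open Pool.Agent.W886.VL
open SOCat
open ZFSet (pair omega)

theorem mos_eq {M : Type} {E : M → M → Prop} (h : WellFounded E) (t : M) :
    mos E t = ZFSet.range (fun s : {s // E s t} => mos E s.1) := by
  have hm : ∀ t, mos E t =
      h.fix (fun t ih => ZFSet.range (fun s : {s // E s t} => ih s.1 s.2)) t := by
    intro t
    unfold mos
    rw [dif_pos h]
  rw [hm, WellFounded.fix_eq]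
  congr 1
  funext s
  rw [hm]

theorem mem_mos {M : Type} {E : M → M → Prop} (h : WellFounded E) {t : M} {y : ZFSet.{0}} :
    y ∈ mos E t ↔ ∃ s, E s t ∧ y = mos E s := by
  rw [mos_eq h, ZFSet.mem_range]
  constructor
  · rintro ⟨⟨s, hs⟩, rfl⟩; exact ⟨s, hs, rfl⟩
  · rintro ⟨s, hs, rfl⟩; exact ⟨⟨s, hs⟩, rfl⟩

theorem mos_not {M : Type} {E : M → M → Prop} (h : ¬ WellFounded E) (t : M) : mos E t = ∅ := by
  unfold mos
  rw [dif_neg h]

theorem mem_HH {M : Type} {z : ZFSet.{0}} : z ∈ HH M ↔ ∃ (E : M → M → Prop) (t : M),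
    z = mos E t := by
  unfold HH
  rw [ZFSet.mem_range]
  constructor
  · rintro ⟨⟨E, t⟩, rfl⟩; exact ⟨E, t, rfl⟩
  · rintro ⟨E, t, rfl⟩; exact ⟨⟨E, t⟩, rfl⟩

theorem wf_false {M : Type} : WellFounded (fun _ _ : M => False) :=
  ⟨fun _ => Acc.intro _ (fun _ h => h.elim)⟩

theorem mos_false {M : Type} (t : M) : mos (fun _ _ : M => False) t = ∅ := by
  rw [ZFSet.eq_empty]
  intro y hy
  rw [mem_mos wf_false] at hy
  obtain ⟨s, hs, _⟩ := hy
  exact hs

theorem mem_HH' {M : Type} {z : ZFSet.{0}} : z ∈ HH M ↔ ∃ (E : M → M → Prop) (t : M),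
    WellFounded E ∧ z = mos E t := by
  rw [mem_HH]
  constructor
  · rintro ⟨E, t, rfl⟩
    by_cases h : WellFounded E
    · exact ⟨E, t, h, rfl⟩
    · exact ⟨_, t, wf_false, by rw [mos_not h, mos_false]⟩
  · rintro ⟨E, t, _, rfl⟩; exact ⟨E, t, rfl⟩

theorem mos_map {M N : Type} {E : M → M → Prop} {E' : N → N → Prop} (h : WellFounded E)
    (h' : WellFounded E') (f : M → N) (hf : ∀ a b, E' b (f a) ↔ ∃ a', b = f a' ∧ E a' a)
    (t : M) : mos E t = mos E' (f t) := by
  induction t using h.induction with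
  | _ t ih =>
  ext y
  rw [mem_mos h, mem_mos h']
  constructor
  · rintro ⟨s, hs, rfl⟩
    exact ⟨f s, (hf t (f s)).2 ⟨s, rfl, hs⟩, ih s hs⟩
  · rintro ⟨b, hb, rfl⟩
    obtain ⟨s, rfl, hs⟩ := (hf t b).1 hb
    exact ⟨s, hs, (ih s hs).symm⟩

theorem congr_le {M N : Type} (e : M ≃ N) {z : ZFSet.{0}} (hz : z ∈ HH M) : z ∈ HH N := by
  obtain ⟨E, t, hE, rfl⟩ := mem_HH'.1 hz
  rw [mem_HH]
  refine ⟨fun a b => E (e.symm a) (e.symm b), e t, ?_⟩
  refine mos_map hE (InvImage.wf _ hE) e (fun a b => ?_) t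
  show E (e.symm b) (e.symm (e a)) ↔ _
  rw [Equiv.symm_apply_apply]
  constructor
  · intro h; exact ⟨e.symm b, (e.apply_symm_apply b).symm, h⟩
  · rintro ⟨a', rfl, h⟩; simpa using h

theorem HH_congr {M N : Type} (h : Cardinal.mk M = Cardinal.mk N) : HH M = HH N := by
  obtain ⟨e⟩ := Cardinal.eq.1 h
  ext z
  exact ⟨congr_le e, congr_le e.symm⟩

theorem HH_tr (M : Type) : (HH M).IsTransitive := by
  intro x hx y hy
  obtain ⟨E, t, hE, rfl⟩ := mem_HH'.1 hx
  obtain ⟨s, _, rfl⟩ := (mem_mos hE).1 hy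
  exact mem_HH.2 ⟨E, s, rfl⟩

theorem card_le_of {α : Type} {z : ZFSet.{0}} (f : α → ZFSet.{0}) (h : ∀ p ∈ z, ∃ a, p = f a) :
    z.card ≤ Cardinal.mk α := by
  have h1 : z ⊆ ZFSet.range f := by
    intro p hp
    obtain ⟨a, rfl⟩ := h p hp
    exact ZFSet.mem_range.2 ⟨a, rfl⟩
  refine (ZFSet.card_mono h1).trans ?_
  have := ZFSet.lift_card_range_le (f := f)
  simpa using this

theorem HH_card {M : Type} {z : ZFSet.{0}} (hz : z ∈ HH M) : z.card ≤ Cardinal.mk M := by
  obtain ⟨E, t, hE, rfl⟩ := mem_HH'.1 hz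
  refine card_le_of (fun s => mos E s) ?_
  intro p hp
  obtain ⟨s, _, rfl⟩ := (mem_mos hE).1 hp
  exact ⟨s, rfl⟩

theorem empty_mem_HH (M : Type) [Nonempty M] : ∅ ∈ HH M :=
  mem_HH.2 ⟨fun _ _ => False, Classical.arbitrary M, (mos_false _).symm⟩

/-- the sum of the codes, with a top point -/
inductive SumR {M : Type} (E : M → M → M → Prop) (t : M → M) : Option (M × M) → Option (M × M) → Prop
  | some (m a b : M) (h : E m a b) : SumR E t (some (m, a)) (some (m, b))
  | none (m : M) : SumR E t (some (m, t m)) none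

theorem sumR_some {M : Type} {E : M → M → M → Prop} {t : M → M} {x : Option (M × M)} {m b : M} :
    SumR E t x (some (m, b)) ↔ ∃ a, x = some (m, a) ∧ E m a b := by
  constructor
  · intro h
    cases h with
    | some m a b h => exact ⟨a, rfl, h⟩
  · rintro ⟨a, rfl, h⟩
    exact SumR.some m a b h

theorem sumR_none {M : Type} {E : M → M → M → Prop} {t : M → M} {x : Option (M × M)} :
    SumR E t x none ↔ ∃ m, x = some (m, t m) := by
  constructor
  · intro h
    cases h with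
    | none m => exact ⟨m, rfl⟩
  · rintro ⟨m, rfl⟩
    exact SumR.none m

theorem sumR_wf {M : Type} {E : M → M → M → Prop} {t : M → M} (h : ∀ m, WellFounded (E m)) :
    WellFounded (SumR E t) := by
  have h1 : ∀ m a, Acc (SumR E t) (some (m, a)) := by
    intro m a
    induction a using (h m).induction with
    | _ a ih =>
    refine Acc.intro _ (fun x hx => ?_)
    obtain ⟨b, rfl, hb⟩ := sumR_some.1 hx
    exact ih b hb
  refine ⟨fun x => ?_⟩
  cases x with
  | some p => exact h1 p.1 p.2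
  | none =>
    refine Acc.intro _ (fun x hx => ?_)
    obtain ⟨m, rfl⟩ := sumR_none.1 hx
    exact h1 _ _

theorem HH_sub {M : Type} [Infinite M] {z : ZFSet.{0}} (h : ∀ x ∈ z, x ∈ HH M)
    (hc : z.card ≤ Cardinal.mk M) : z ∈ HH M := by
  rcases ZFSet.eq_empty_or_nonempty z with h0 | ⟨x0, hx0⟩
  · rw [h0]; exact empty_mem_HH M
  -- a surjection
  have hg : ∃ g : M → ZFSet.{0}, (∀ m, g m ∈ z) ∧ ∀ x ∈ z, ∃ m, x = g m := by
    have : Nonempty (Shrink.{0} z) := ⟨equivShrink z ⟨x0, hx0⟩⟩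
    obtain ⟨⟨f, hf⟩⟩ : Nonempty (Shrink.{0} z ↪ M) := hc
    refine ⟨fun m => ((equivShrink z).symm (Function.invFun f m)).1, fun m => ?_, fun x hx => ?_⟩
    · exact ((equivShrink z).symm (Function.invFun f m)).2
    · refine ⟨f (equivShrink z ⟨x, hx⟩), ?_⟩
      show x = ((equivShrink z).symm (Function.invFun f (f (equivShrink z ⟨x, hx⟩)))).1
      rw [Function.leftInverse_invFun hf, Equiv.symm_apply_apply]
  obtain ⟨g, hg1, hg2⟩ := hg
  have hE := fun m => mem_HH'.1 (h (g m) (hg1 m))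
  choose E t hwf hgm using hE
  have hR := sumR_wf (t := t) hwf
  have h1 : ∀ m a, mos (E m) a = mos (SumR E t) (some (m, a)) := by
    intro m a
    refine mos_map (hwf m) hR (fun a => some (m, a)) (fun a b => ?_) a
    exact sumR_some
  have h2 : z ∈ HH (Option (M × M)) := by
    refine mem_HH.2 ⟨SumR E t, none, ?_⟩
    ext x
    rw [mem_mos hR]
    constructor
    · intro hx
      obtain ⟨m, rfl⟩ := hg2 x hx
      exact ⟨some (m, t m), sumR_none.2 ⟨m, rfl⟩, by rw [← h1, hgm]⟩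
    · rintro ⟨y, hy, rfl⟩
      obtain ⟨m, rfl⟩ := sumR_none.1 hy
      rw [← h1, ← hgm]
      exact hg1 m
  have h3 : Cardinal.mk (Option (M × M)) = Cardinal.mk M := by
    have ha : Cardinal.aleph0 ≤ Cardinal.mk M := Cardinal.aleph0_le_mk M
    rw [Cardinal.mk_option, Cardinal.mk_prod, Cardinal.lift_id, Cardinal.mul_eq_self ha,
      Cardinal.add_one_eq ha]
  rw [HH_congr h3] at h2
  exact h2

section inf

variable {M : Type} [Infinite M]

theorem al : Cardinal.aleph0 ≤ Cardinal.mk M := Cardinal.aleph0_le_mk M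

theorem pr_mem {a b : ZFSet.{0}} (ha : a ∈ HH M) (hb : b ∈ HH M) : ({a, b} : ZFSet.{0}) ∈ HH M := by
  refine HH_sub ?_ ?_
  · intro x hx
    rcases ZFSet.mem_pair.1 hx with h | h <;> rw [h] <;> assumption
  · refine (card_le_of (fun b' : Bool => if b' then a else b) ?_).trans ?_
    · intro p hp
      rcases ZFSet.mem_pair.1 hp with h | h
      · exact ⟨true, by simp [h]⟩
      · exact ⟨false, by simp [h]⟩
    · exact (Cardinal.mk_le_aleph0).trans al

theorem pair_mem' {a b : ZFSet.{0}} (ha : a ∈ HH M) (hb : b ∈ HH M) : pair a b ∈ HH M := by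
  unfold pair
  refine pr_mem ?_ (pr_mem ha hb)
  rw [← ZFSet.pair_eq_singleton]
  exact pr_mem ha ha

theorem un_mem {a b : ZFSet.{0}} (ha : a ∈ HH M) (hb : b ∈ HH M) : a ∪ b ∈ HH M := by
  refine HH_sub ?_ ?_
  · intro x hx
    rcases ZFSet.mem_union.1 hx with h | h
    · exact HH_tr M _ ha h
    · exact HH_tr M _ hb h
  · refine ZFSet.card_union_le.trans ?_
    refine (add_le_add (HH_card ha) (HH_card hb)).trans ?_
    rw [Cardinal.add_eq_self al]

theorem num_mem (n : ℕ) : num n ∈ HH M := by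
  induction n with
  | zero => exact empty_mem_HH M
  | succ n ih =>
    have : num (n + 1) = {num n, num n} ∪ num n := by
      ext x
      show x ∈ (insert (num n) (num n) : ZFSet) ↔ _
      rw [ZFSet.mem_insert_iff, ZFSet.mem_union, ZFSet.mem_pair]
      tauto
    rw [this]
    exact un_mem (pr_mem ih ih) ih

theorem omega_mem : omega ∈ HH M := by
  refine HH_sub ?_ ?_
  · intro x hx
    obtain ⟨n, rfl⟩ := mem_omega.1 hx
    exact num_mem n
  · refine (card_le_of (fun n : ℕ => num n) ?_).trans ?_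
    · intro p hp; exact mem_omega.1 hp
    · exact (Cardinal.mk_le_aleph0).trans al

theorem fnZ_mem {s : ℕ → ZFSet.{0}} (hs : ∀ n, s n ∈ HH M) : fnZ s ∈ HH M := by
  refine HH_sub ?_ ?_
  · intro x hx
    obtain ⟨n, rfl⟩ := mem_fnZ.1 hx
    exact pair_mem' (num_mem n) (hs n)
  · refine (card_le_of (fun n : ℕ => pair (num n) (s n)) ?_).trans ?_
    · intro p hp; exact mem_fnZ.1 hp
    · exact (Cardinal.mk_le_aleph0).trans al

theorem tupZ_mem {l : List ZFSet.{0}} (hl : ∀ x ∈ l, x ∈ HH M) : tupZ l ∈ HH M := by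
  refine HH_sub ?_ ?_
  · intro x hx
    obtain ⟨k, rfl⟩ := mem_tupZ.1 hx
    exact pair_mem' (num_mem _) (hl _ (List.get_mem _ _))
  · refine (card_le_of (fun k : Fin l.length => pair (num k.1) (l.get k)) ?_).trans ?_
    · intro p hp; exact mem_tupZ.1 hp
    · exact (Cardinal.mk_le_aleph0).trans al

/-- the element of `X` given by an element of `Shrink X` -/
noncomputable def sv (X : ZFSet.{0}) (a : Shrink.{0} X) : ZFSet.{0} := ((equivShrink X).symm a).1

theorem sv_surj {X x : ZFSet.{0}} (hx : x ∈ X) : ∃ a, sv X a = x := by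
  refine ⟨equivShrink X ⟨x, hx⟩, ?_⟩
  unfold sv
  simp

theorem list_surj {X : ZFSet.{0}} {l : List ZFSet.{0}} (hl : ∀ x ∈ l, x ∈ X) :
    ∃ l' : List (Shrink.{0} X), l'.map (sv X) = l := by
  induction l with
  | nil => exact ⟨[], rfl⟩
  | cons a l ih =>
    obtain ⟨l', h'⟩ := ih (fun x hx => hl x (by simp [hx]))
    obtain ⟨a', ha'⟩ := sv_surj (hl a (by simp))
    exact ⟨a' :: l', by simp [h', ha']⟩

theorem card_list {X : ZFSet.{0}} (hX : X ∈ HH M) :
    Cardinal.mk (List (Shrink.{0} X)) ≤ Cardinal.mk M :=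
  (Cardinal.mk_list_le_max _).trans (max_le al (HH_card hX))

theorem FSup_asg {X : ZFSet.{0}} {s : ℕ → ZFSet.{0}} (hs : FSup X s) :
    ∃ l : List (Shrink.{0} X), s = asg (l.map (sv X)) := by
  obtain ⟨h1, N, hN⟩ := hs
  obtain ⟨l, hl⟩ := list_surj (X := X) (l := List.ofFn (fun i : Fin N => s i.1)) (by
    intro x hx
    rw [List.mem_ofFn] at hx
    obtain ⟨i, rfl⟩ := hx
    exact h1 _)
  refine ⟨l, ?_⟩
  rw [hl]
  funext n
  unfold asg
  by_cases hn : n < N
  · rw [List.getD_eq_getElem _ _ (by simpa using hn)]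
    simp
  · rw [List.getD_eq_default _ _ (by simpa using hn)]
    exact hN n (not_lt.1 hn)

theorem FSet_mem {X : ZFSet.{0}} (hX : X ∈ HH M) : FSet X ∈ HH M := by
  refine HH_sub ?_ ?_
  · intro f hf
    obtain ⟨s, hs, rfl⟩ := mem_FSet.1 hf
    exact fnZ_mem (fun n => HH_tr M _ hX (hs.1 n))
  · refine (card_le_of (fun l : List (Shrink.{0} X) => fnZ (asg (l.map (sv X)))) ?_).trans
      (card_list hX)
    intro f hf
    obtain ⟨s, hs, rfl⟩ := mem_FSet.1 hf
    obtain ⟨l, hl⟩ := FSup_asg hs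
    exact ⟨l, by rw [hl]⟩

theorem RSet_mem {X : ZFSet.{0}} (hX : X ∈ HH M) : RSet X ∈ HH M := by
  refine HH_sub ?_ ?_
  · intro p hp
    obtain ⟨φ, s, hs, _, rfl⟩ := mem_RSet.1 hp
    exact pair_mem' (num_mem _) (fnZ_mem (fun n => HH_tr M _ hX (hs.1 n)))
  · refine (card_le_of (fun q : ℕ × List (Shrink.{0} X) =>
      pair (num q.1) (fnZ (asg (q.2.map (sv X))))) ?_).trans ?_
    · intro p hp
      obtain ⟨φ, s, hs, _, rfl⟩ := mem_RSet.1 hp
      obtain ⟨l, hl⟩ := FSup_asg hs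
      exact ⟨(φ.code, l), by rw [← hl]⟩
    · rw [Cardinal.mk_prod, Cardinal.lift_id, Cardinal.lift_id, Cardinal.mk_nat]
      exact Cardinal.mul_le_of_le al al (card_list hX)

end inf

theorem task : T_HH where
  tr := fun M _ => HH_tr M
  sub := fun M _ z h hc => HH_sub h hc
  card := fun M _ z hz => HH_card hz
  congr := fun M N h => HH_congr h
  base := fun M _ => ⟨HH_tr M, omega_mem, fun a ha b hb => pr_mem ha hb,
    fun a ha b hb => un_mem ha hb⟩
  fs := fun M _ X hX => ⟨FSet_mem hX, RSet_mem hX⟩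
  tup := by
    intro M _ d z hd hz
    refine HH_sub ?_ ?_
    · intro p hp
      obtain ⟨l, hl, rfl⟩ := hz p hp
      exact tupZ_mem (fun x hx => HH_tr M _ hd (hl x hx))
    · refine (card_le_of (fun l : List (Shrink.{0} d) => tupZ (l.map (sv d))) ?_).trans
        (card_list hd)
      intro p hp
      obtain ⟨l, hl, rfl⟩ := hz p hp
      obtain ⟨l', hl'⟩ := list_surj hl
      exact ⟨l', by rw [hl']⟩

end Pool.Agent.W928.VL.HH
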