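import Pool.Agent.W886.VL.Stm
import Pool.Agent.W928.VL.HH

/-!
# VL-CDS: codes of structures
-/

namespace Pool.Agent.W928.VL.CDS

open Pool.Agent.W886.VL
open SOCat
open ZFSet (pair omega)
open Pool.Agent.W928.VL.HH (mem_mos mem_HH card_le_of fnZ_mem)

theorem fns_inj {n : ℕ} {l l' : Fin n → ZFSet.{0}} {y y' : ZFSet.{0}}
    (h : List.ofFn l ++ [y] = List.ofFn l' ++ [y']) : l = l' ∧ y = y' := by
  obtain ⟨h1, h2⟩ := List.append_inj' h rfl
  exact ⟨List.ofFn_injective h1, by simpa using h2⟩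

theorem isom {τ : Voc} {M N : Type} {S : Str τ M} {S' : Str τ N} {b : ZFSet.{0}}
    (h : Cds S b) (h' : Cds S' b) : Isom S S' := by
  obtain ⟨s, e, hb, _, he, _, h0, hR, hF⟩ := h
  obtain ⟨s', e', hb', _, he', _, h0', hR', hF'⟩ := h'
  have hs : s' = s := fnZ_inj.1 (hb'.symm.trans hb)
  subst hs
  have h1 : ∀ m, ∃ n, e' n = e m := fun m => (h0' _).1 ((h0 _).2 ⟨m, rfl⟩)
  have h2 : ∀ n, ∃ m, e m = e' n := fun n => (h0 _).1 ((h0' _).2 ⟨n, rfl⟩)
  choose i hi using h1
  choose j hj using h2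
  let E : M ≃ N := ⟨i, j, fun m => he (by rw [hj, hi]), fun n => he' (by rw [hi, hj])⟩
  have hE : ∀ m, e' (E m) = e m := hi
  refine ⟨E, ?_, ?_⟩
  · intro R xs
    rw [hR, hR']
    simp only [hE]
  · intro f xs
    have h3 : S.fn f xs = S.fn f xs := rfl
    rw [hF] at h3
    symm
    rw [hF']
    simp only [hE]
    exact h3

theorem congr {τ : Voc} {M N : Type} {S : Str τ M} {S' : Str τ N} {b : ZFSet.{0}}
    (hI : Isom S S') (h : Cds S b) : Cds S' b := by
  obtain ⟨s, e, hb, h1, he, ⟨m0, hm0⟩, h0, hR, hF⟩ := h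
  obtain ⟨i, hi1, hi2⟩ := hI
  refine ⟨s, fun n => e (i.symm n), hb, h1, he.comp i.symm.injective, ⟨i m0, by simpa using hm0⟩,
    ?_, ?_, ?_⟩
  · intro x
    rw [h0]
    constructor
    · rintro ⟨m, rfl⟩; exact ⟨i m, by simp⟩
    · rintro ⟨n, rfl⟩; exact ⟨_, rfl⟩
  · intro R xs
    rw [← hR R (fun k => i.symm (xs k)), hi1]
    simp
  · intro f xs y
    rw [← hF f (fun k => i.symm (xs k)) (i.symm y)]
    have h3 := hi2 f (fun k => i.symm (xs k))
    simp only [Equiv.apply_symm_apply] at h3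
    rw [← h3]
    constructor
    · rintro rfl; simp
    · intro h; rw [h]; simp

/-! ### existence of codes -/

section ex

variable {τ : Voc} {M : Type} (S : Str τ M) (e : M → ZFSet.{0})

/-- the relation sets -/
noncomputable def relS (n : ℕ) : ZFSet.{0} :=
  ZFSet.range (fun q : {q : Σ R : Fin τ.nR, (Fin (τ.aR R) → M) //
    n = 3 * (q.1.1 + 1) ∧ S.rel q.1 q.2} => tupZ (List.ofFn (fun k => e (q.1.2 k))))

/-- the function sets -/
noncomputable def fnS (n : ℕ) : ZFSet.{0} :=
  ZFSet.range (fun q : {q : Σ f : Fin τ.nF, (Fin (τ.aF f) → M) //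
    n = 3 * (τ.nR + q.1.1 + 1)} => tupZ (List.ofFn (fun k => e (q.1.2 k)) ++ [e (S.fn q.1.1 q.1.2)]))

noncomputable def seqS (n : ℕ) : ZFSet.{0} :=
  if n = 0 then ZFSet.range e else relS S e n ∪ fnS S e n

variable {S e}

theorem mem_relS {n : ℕ} {p : ZFSet.{0}} : p ∈ relS S e n ↔ ∃ (R : Fin τ.nR)
    (xs : Fin (τ.aR R) → M), n = 3 * (R.1 + 1) ∧ S.rel R xs ∧
      p = tupZ (List.ofFn (fun k => e (xs k))) := by
  unfold relS
  rw [ZFSet.mem_range]
  constructor
  · rintro ⟨⟨⟨R, xs⟩, h1, h2⟩, rfl⟩; exact ⟨R, xs, h1, h2, rfl⟩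
  · rintro ⟨R, xs, h1, h2, rfl⟩; exact ⟨⟨⟨R, xs⟩, h1, h2⟩, rfl⟩

theorem mem_fnS {n : ℕ} {p : ZFSet.{0}} : p ∈ fnS S e n ↔ ∃ (f : Fin τ.nF)
    (xs : Fin (τ.aF f) → M), n = 3 * (τ.nR + f.1 + 1) ∧
      p = tupZ (List.ofFn (fun k => e (xs k)) ++ [e (S.fn f xs)]) := by
  unfold fnS
  rw [ZFSet.mem_range]
  constructor
  · rintro ⟨⟨⟨R, xs⟩, h1⟩, rfl⟩; exact ⟨R, xs, h1, rfl⟩
  · rintro ⟨R, xs, h1, rfl⟩; exact ⟨⟨⟨R, xs⟩, h1⟩, rfl⟩

theorem cds_seqS (he : Function.Injective e) (h0 : ∃ m, e m = ∅) :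
    Cds S (fnZ (seqS S e)) := by
  refine ⟨seqS S e, e, rfl, ?_, he, h0, ?_, ?_, ?_⟩
  · intro n hn
    unfold seqS
    rw [if_neg (by have := hn 0 (Nat.zero_le _); simpa using this)]
    rw [ZFSet.eq_empty]
    intro p hp
    rcases ZFSet.mem_union.1 hp with h | h
    · obtain ⟨R, xs, h1, _⟩ := mem_relS.1 h
      exact hn (R.1 + 1) (by have := R.2; omega) h1
    · obtain ⟨f, xs, h1, _⟩ := mem_fnS.1 h
      exact hn (τ.nR + f.1 + 1) (by have := f.2; omega) h1
  · intro x
    unfold seqS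
    rw [if_pos rfl, ZFSet.mem_range]
  · intro R xs
    unfold seqS
    rw [if_neg (by omega), ZFSet.mem_union]
    constructor
    · intro h
      exact Or.inl (mem_relS.2 ⟨R, xs, rfl, h, rfl⟩)
    · rintro (h | h)
      · obtain ⟨R', xs', h1, h2, h3⟩ := mem_relS.1 h
        have h4 : R' = R := Fin.ext (by omega)
        subst h4
        have h5 := List.ofFn_injective (tupZ_inj.1 h3)
        have h6 : xs = xs' := by
          funext k
          exact he (congrFun h5 k)
        rw [h6]; exact h2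
      · obtain ⟨f, xs', h1, _⟩ := mem_fnS.1 h
        have := R.2
        omega
  · intro f xs y
    unfold seqS
    rw [if_neg (by omega), ZFSet.mem_union]
    constructor
    · rintro rfl
      exact Or.inr (mem_fnS.2 ⟨f, xs, rfl, rfl⟩)
    · rintro (h | h)
      · obtain ⟨R', xs', h1, h2, h3⟩ := mem_relS.1 h
        have := R'.2
        omega
      · obtain ⟨f', xs', h1, h3⟩ := mem_fnS.1 h
        have h4 : f' = f := Fin.ext (by omega)
        subst h4
        obtain ⟨h5, h6⟩ := fns_inj (tupZ_inj.1 h3)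
        have h7 : xs = xs' := by
          funext k
          exact he (congrFun h5 k)
        rw [h7]; exact (he h6).symm

end ex

theorem ex (hH : T_HH) {τ : Voc} (M : Type) [Infinite M] (S : Str τ M) : ∃ b ∈ HH M, Cds S b := by
  obtain ⟨r, hr⟩ : ∃ r : M → M → Prop, IsWellOrder M r := ⟨WellOrderingRel, inferInstance⟩
  have hwf : WellFounded r := hr.wf
  let e : M → ZFSet.{0} := fun m => mos r m
  have hlt : ∀ a b, r a b → e a ∈ e b := fun a b h => (mem_mos hwf).2 ⟨a, h, rfl⟩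
  have he : Function.Injective e := by
    intro a b hab
    rcases trichotomous_of r a b with h | h | h
    · have := hlt a b h
      rw [hab] at this
      exact absurd this (ZFSet.mem_irrefl _)
    · exact h
    · have := hlt b a h
      rw [hab] at this
      exact absurd this (ZFSet.mem_irrefl _)
  have h0 : ∃ m, e m = ∅ := by
    refine ⟨hwf.min Set.univ ⟨Classical.arbitrary M, trivial⟩, ?_⟩
    rw [ZFSet.eq_empty]
    intro y hy
    obtain ⟨s, hs, _⟩ := (mem_mos hwf).1 hy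
    exact hwf.not_lt_min Set.univ trivial hs
  have heH : ∀ m, e m ∈ HH M := fun m => mem_HH.2 ⟨r, m, rfl⟩
  have hd : ZFSet.range e ∈ HH M := by
    refine hH.sub M _ ?_ ?_
    · intro x hx
      obtain ⟨m, rfl⟩ := ZFSet.mem_range.1 hx
      exact heH m
    · refine card_le_of e ?_
      intro p hp
      obtain ⟨m, rfl⟩ := ZFSet.mem_range.1 hp
      exact ⟨m, rfl⟩
  refine ⟨_, ?_, cds_seqS (S := S) he h0⟩
  refine fnZ_mem (fun n => ?_)
  unfold seqS
  by_cases hn : n = 0
  · rw [if_pos hn]; exact hd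
  · rw [if_neg hn]
    refine hH.tup M (ZFSet.range e) _ hd ?_
    intro p hp
    rcases ZFSet.mem_union.1 hp with h | h
    · obtain ⟨R, xs, _, _, rfl⟩ := mem_relS.1 h
      refine ⟨_, ?_, rfl⟩
      intro x hx
      rw [List.mem_ofFn] at hx
      obtain ⟨k, rfl⟩ := hx
      exact ZFSet.mem_range.2 ⟨_, rfl⟩
    · obtain ⟨f, xs, _, rfl⟩ := mem_fnS.1 h
      refine ⟨_, ?_, rfl⟩
      intro x hx
      rcases List.mem_append.1 hx with h' | h'
      · rw [List.mem_ofFn] at h'
        obtain ⟨k, rfl⟩ := h'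
        exact ZFSet.mem_range.2 ⟨_, rfl⟩
      · rw [List.mem_singleton] at h'
        rw [h']
        exact ZFSet.mem_range.2 ⟨_, rfl⟩

/-! ### satisfaction -/

theorem val_mem {A b : ZFSet.{0}} (hA : A.IsTransitive) (hb : b ∈ A) {s : ℕ → ZFSet.{0}}
    (h : b = fnZ s) (n : ℕ) : s n ∈ A := by
  have h1 : pair (num n) (s n) ∈ A := hA _ hb (by rw [h]; exact mem_fnZ.2 ⟨n, rfl⟩)
  have h2 : ({num n, s n} : ZFSet.{0}) ∈ A := hA _ h1 (ZFSet.mem_pair.2 (Or.inr rfl))
  exact hA _ h2 (ZFSet.mem_pair.2 (Or.inr rfl))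

/-- the invariant -/
structure Inv {τ : Voc} {M : Type} (s : ℕ → ZFSet.{0}) (e : M → ZFSet.{0})
    (v : ℕ → M) (W : Asg M) (w : ℕ → ZFSet.{0}) : Prop where
  z : ∀ n, (∀ k, k ≤ τ.nR + τ.nF → n ≠ 3 * k) ∨ w n = s n
  v : ∀ x, w (3 * x + 1) = e (v x)
  W : ∀ r i xs, W r i xs ↔ tupZ (List.ofFn (fun k => e (xs k))) ∈ w (3 * Nat.pair r i + 2)

theorem upd_apply {M : Type} (W : Asg M) (r i : ℕ) (P : (Fin r → M) → Prop) (r' i' : ℕ)
    (xs : Fin r' → M) : (Asg.upd W r i P) r' i' xs ↔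
      ((∃ h : r' = r, i' = i ∧ P (h ▸ xs)) ∨ (¬ (r' = r ∧ i' = i) ∧ W r' i' xs)) := by
  unfold Asg.upd
  by_cases hr : r' = r
  · subst hr
    rw [Function.update_self]
    by_cases hi : i' = i
    · subst hi
      rw [Function.update_self]
      simp
    · rw [Function.update_of_ne hi]
      simp [hi]
  · rw [Function.update_of_ne hr]
    simp [hr]

theorem sat_iff {τ : Voc} {M : Type} {S : Str τ M} {A : ZFSet.{0}}
    {s : ℕ → ZFSet.{0}} {e : M → ZFSet.{0}} (he : Function.Injective e)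
    (hsA : ∀ x ∈ s 0, x ∈ A)
    (h0 : ∀ x, x ∈ s 0 ↔ ∃ m, e m = x)
    (hR : ∀ R xs, S.rel R xs ↔ tupZ (List.ofFn (fun k => e (xs k))) ∈ s (3 * (R.1 + 1)))
    (hF : ∀ f xs y, S.fn f xs = y ↔
      tupZ (List.ofFn (fun k => e (xs k)) ++ [e y]) ∈ s (3 * (τ.nR + f.1 + 1)))
    (hz : ∀ z : ZFSet.{0}, (∀ p ∈ z, ∃ l : List ZFSet.{0}, (∀ x ∈ l, x ∈ s 0) ∧ p = tupZ l) →
      z ∈ A) (ψ : SO τ) :
    ∀ (v : ℕ → M) (W : Asg M) (w : ℕ → ZFSet.{0}), Inv (τ := τ) s e v W w →
      (ψ.Sat S v W ↔ NSat A (emb ψ) w) := by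
  induction ψ with
  | eq x y =>
    intro v W w hI
    show v x = v y ↔ w (3 * x + 1) = w (3 * y + 1)
    rw [hI.v, hI.v]
    exact ⟨fun h => by rw [h], fun h => he h⟩
  | rel R xs =>
    intro v W w hI
    show S.rel R (fun k => v (xs k)) ↔
      tupZ ((List.ofFn (fun k => 3 * xs k + 1)).map w) ∈ w (3 * (R.1 + 1))
    have h1 : w (3 * (R.1 + 1)) = s (3 * (R.1 + 1)) := by
      rcases hI.z (3 * (R.1 + 1)) with h | h
      · exact absurd rfl (h (R.1 + 1) (by have := R.2; omega))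
      · exact h
    rw [h1, hR, List.map_ofFn]
    have h2 : (w ∘ fun k => 3 * xs k + 1) = fun k => e (v (xs k)) := by
      funext k
      exact hI.v _
    rw [h2]
  | fn f xs y =>
    intro v W w hI
    show S.fn f (fun k => v (xs k)) = v y ↔
      tupZ ((List.ofFn (fun k => 3 * xs k + 1) ++ [3 * y + 1]).map w) ∈
        w (3 * (τ.nR + f.1 + 1))
    have h1 : w (3 * (τ.nR + f.1 + 1)) = s (3 * (τ.nR + f.1 + 1)) := by
      rcases hI.z (3 * (τ.nR + f.1 + 1)) with h | h
      · exact absurd rfl (h (τ.nR + f.1 + 1) (by have := f.2; omega))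
      · exact h
    rw [h1, hF, List.map_append, List.map_ofFn]
    have h2 : (w ∘ fun k => 3 * xs k + 1) = fun k => e (v (xs k)) := by
      funext k
      exact hI.v _
    rw [h2]
    have h3 : [3 * y + 1].map w = [e (v y)] := by simp [hI.v]
    rw [h3]
  | var r i xs =>
    intro v W w hI
    show W r i (fun k => v (xs k)) ↔
      tupZ ((List.ofFn (fun k => 3 * xs k + 1)).map w) ∈ w (3 * Nat.pair r i + 2)
    rw [hI.W, List.map_ofFn]
    have h2 : (w ∘ fun k => 3 * xs k + 1) = fun k => e (v (xs k)) := by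
      funext k
      exact hI.v _
    rw [h2]
  | neg φ ih =>
    intro v W w hI
    exact not_congr (ih v W w hI)
  | and φ ψ ih1 ih2 =>
    intro v W w hI
    exact and_congr (ih1 v W w hI) (ih2 v W w hI)
  | all x φ ih =>
    intro v W w hI
    show (∀ m : M, φ.Sat S (Function.update v x m) W) ↔
      ∀ a ∈ A, a ∈ w 0 → NSat A (emb φ) (Function.update w (3 * x + 1) a)
    have hw0 : w 0 = s 0 := by
      rcases hI.z 0 with h | h
      · exact absurd rfl (h 0 (Nat.zero_le _))
      · exact h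
    have key : ∀ m : M, Inv (τ := τ) s e (Function.update v x m) W
        (Function.update w (3 * x + 1) (e m)) := by
      intro m
      refine ⟨?_, ?_, ?_⟩
      · intro n
        by_cases hn : n = 3 * x + 1
        · left; intro k _; omega
        · rw [Function.update_of_ne hn]; exact hI.z n
      · intro y
        by_cases hy : y = x
        · subst hy; simp
        · rw [Function.update_of_ne hy, Function.update_of_ne (by omega)]; exact hI.v y
      · intro r i xs
        rw [Function.update_of_ne (by omega)]; exact hI.W r i xs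
    constructor
    · intro h a _ ha
      rw [hw0, h0] at ha
      obtain ⟨m, rfl⟩ := ha
      exact (ih _ _ _ (key m)).1 (h m)
    · intro h m
      have hm : e m ∈ s 0 := (h0 _).2 ⟨m, rfl⟩
      exact (ih _ _ _ (key m)).2 (h (e m) (hsA _ hm) (by rw [hw0]; exact hm))
  | allR r i φ ih =>
    intro v W w hI
    show (∀ P : (Fin r → M) → Prop, φ.Sat S v (W.upd r i P)) ↔
      ∀ a ∈ A, NSat A (emb φ) (Function.update w (3 * Nat.pair r i + 2) a)
    have key : ∀ (P : (Fin r → M) → Prop) (a : ZFSet.{0}),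
        (∀ xs, P xs ↔ tupZ (List.ofFn (fun k => e (xs k))) ∈ a) →
        Inv (τ := τ) s e v (W.upd r i P) (Function.update w (3 * Nat.pair r i + 2) a) := by
      intro P a hPa
      refine ⟨?_, ?_, ?_⟩
      · intro n
        by_cases hn : n = 3 * Nat.pair r i + 2
        · left; intro k _; omega
        · rw [Function.update_of_ne hn]; exact hI.z n
      · intro y
        rw [Function.update_of_ne (by omega)]; exact hI.v y
      · intro r' i' xs
        rw [upd_apply]
        by_cases h : r' = r ∧ i' = i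
        · obtain ⟨rfl, rfl⟩ := h
          rw [Function.update_self, ← hPa]
          simp
        · have hne : 3 * Nat.pair r' i' + 2 ≠ 3 * Nat.pair r i + 2 := by
            intro h'
            exact h (pair_eq.1 (by omega))
          rw [Function.update_of_ne hne, ← hI.W]
          constructor
          · rintro (⟨h1, h2, _⟩ | ⟨_, h1⟩)
            · exact absurd ⟨h1, h2⟩ h
            · exact h1
          · intro h1
            exact Or.inr ⟨h, h1⟩
    constructor
    · intro h a _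
      exact (ih _ _ _ (key (fun xs => tupZ (List.ofFn (fun k => e (xs k))) ∈ a) a
        (fun xs => Iff.rfl))).1 (h _)
    · intro h P
      have hP : ∀ xs, P xs ↔ tupZ (List.ofFn (fun k => e (xs k))) ∈
          ZFSet.range (fun q : {xs // P xs} => tupZ (List.ofFn (fun k => e (q.1 k)))) := by
        intro xs
        rw [ZFSet.mem_range]
        constructor
        · intro h; exact ⟨⟨xs, h⟩, rfl⟩
        · rintro ⟨⟨ys, hys⟩, h⟩
          have h5 := List.ofFn_injective (tupZ_inj.1 h)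
          have h6 : ys = xs := by
            funext k
            exact he (congrFun h5 k)
          rw [← h6]; exact hys
      refine (ih _ _ _ (key P _ hP)).2 (h _ (hz _ ?_))
      intro p hp
      obtain ⟨⟨ys, hys⟩, rfl⟩ := ZFSet.mem_range.1 hp
      refine ⟨_, ?_, rfl⟩
      intro x hx
      rw [List.mem_ofFn] at hx
      obtain ⟨k, rfl⟩ := hx
      exact (h0 _).2 ⟨_, rfl⟩

theorem task (h : T_HH) : T_CDS where
  ex := fun M _ S => ex h M S
  isom := fun M N S S' b h1 h2 => isom h1 h2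
  congr := fun M N S S' b h1 h2 => congr h1 h2
  sat := by
    intro τ M S A b hA hb hC hz ψ hψ
    obtain ⟨s, e, hbs, h1, he, ⟨m0, hm0⟩, h0, hR, hF⟩ := hC
    have hv : val b = s := by
      funext n
      rw [hbs, val_fnZ]
    have hsA : ∀ x ∈ s 0, x ∈ A := fun x hx => hA _ (val_mem hA hb hbs 0) hx
    rw [hv] at hz ⊢
    have hI : Inv (τ := τ) s e (fun _ => m0) (fun _ _ _ => False) s := by
      refine ⟨fun n => Or.inr rfl, ?_, ?_⟩
      · intro x
        rw [h1 _ (by intro k _; omega), hm0]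
      · intro r i xs
        rw [h1 _ (by intro k _; omega)]
        simp
    rw [← sat_iff he hsA h0 hR hF hz ψ _ _ _ hI]
    constructor
    · intro h
      exact h _ _
    · intro h v W
      exact hψ M S _ v _ W h

end Pool.Agent.W928.VL.CDS
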