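import Pool.Agent.W886.VL.Stm
import Pool.Agent.W928.VL.HH

/-!
# VL-DCL: definable closures in good sets are elementary substructures
-/

namespace Pool.Agent.W928.VL.DCL

open Pool.Agent.W886.VL
open SOCat (Fml cons)
open ZFSet (pair omega)
open Pool.Agent.W928.VL.HH (card_le_of sv list_surj)

deriving instance Countable for SOCat.Fml

theorem sat_agree (φ : Fml) : ∃ N, ∀ (A : ZFSet.{0}) (v v' : ℕ → ZFSet.{0}),
    (∀ n < N, v n = v' n) → (Sat A φ v ↔ Sat A φ v') := by
  induction φ with
  | mem i j =>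
    refine ⟨max i j + 1, fun A v v' h => ?_⟩
    simp only [Sat]
    rw [h i (by omega), h j (by omega)]
  | eq i j =>
    refine ⟨max i j + 1, fun A v v' h => ?_⟩
    simp only [Sat]
    rw [h i (by omega), h j (by omega)]
  | neg φ ih =>
    obtain ⟨N, hN⟩ := ih
    exact ⟨N, fun A v v' h => not_congr (hN A v v' h)⟩
  | and φ ψ ih1 ih2 =>
    obtain ⟨N, hN⟩ := ih1
    obtain ⟨N', hN'⟩ := ih2
    exact ⟨max N N', fun A v v' h => and_congr
      (hN A v v' fun n hn => h n (lt_of_lt_of_le hn (le_max_left _ _)))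
      (hN' A v v' fun n hn => h n (lt_of_lt_of_le hn (le_max_right _ _)))⟩
  | all φ ih =>
    obtain ⟨N, hN⟩ := ih
    refine ⟨N, fun A v v' h => forall₂_congr fun a ha => hN A _ _ ?_⟩
    intro n hn
    cases n with
    | zero => rfl
    | succ n => exact h n (by omega)

theorem asg_cons (a : ZFSet.{0}) (l : List ZFSet.{0}) : asg (a :: l) = cons a (asg l) := by
  funext n
  cases n with
  | zero => simp [asg, cons]
  | succ n => simp [asg, cons]

theorem asg_app_left {l l' : List ZFSet.{0}} {n : ℕ} (h : n < l.length) :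
    asg (l ++ l') n = asg l n := by
  unfold asg
  rw [List.getD_append _ _ _ _ h]

theorem asg_app_right (l l' : List ZFSet.{0}) (n : ℕ) :
    asg (l ++ l') (l.length + n) = asg l' n := by
  unfold asg
  rw [List.getD_append_right _ _ _ _ (Nat.le_add_right _ _)]
  simp

theorem asg_big {l : List ZFSet.{0}} {n : ℕ} (h : l.length ≤ n) : asg l n = ∅ := by
  unfold asg
  rw [List.getD_eq_default _ _ h]

theorem mem_dcl {A : ZFSet.{0}} {X : ZFSet.{0} → Prop} {b : ZFSet.{0}} : b ∈ dcl A X ↔
    ∃ (φ : Fml) (l : List ZFSet.{0}), (∀ x ∈ l, X x) ∧ UniqDef A φ l b := by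
  unfold dcl
  rw [ZFSet.mem_sep]
  constructor
  · exact fun h => h.2
  · rintro ⟨φ, l, h1, h2⟩
    exact ⟨h2.1, φ, l, h1, h2⟩

theorem closed {A : ZFSet.{0}} {X : ZFSet.{0} → Prop} (ys : List ZFSet.{0}) :
    ∀ (ψ : Fml) (l : List ZFSet.{0}) (b : ZFSet.{0}), (∀ y ∈ ys, y ∈ dcl A X) →
    (∀ x ∈ l, X x) → b ∈ A → Sat A ψ (asg (b :: (ys ++ l))) →
    (∀ c ∈ A, Sat A ψ (asg (c :: (ys ++ l))) → c = b) → b ∈ dcl A X := by
  induction ys with
  | nil =>
    intro ψ l b _ hl hb h1 h2
    exact mem_dcl.2 ⟨ψ, l, hl, hb, h1, h2⟩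
  | cons y ys ih =>
    intro ψ l b hy hl hb h1 h2
    obtain ⟨φ, ly, hly, hyA, hy1, hy2⟩ := mem_dcl.1 (hy y (by simp))
    let g1 : ℕ → ℕ := fun n => match n with
      | 0 => 0
      | n + 1 => 1 + (1 + (ys ++ l).length + n)
    let g2 : ℕ → ℕ := fun n => match n with
      | 0 => 1
      | 1 => 0
      | n + 2 => if n < (ys ++ l).length then n + 2 else
          1 + (1 + ((ys ++ l).length + ly.length))
    have e1 : ∀ c z : ZFSet.{0}, (fun n => cons z (asg (c :: (ys ++ (l ++ ly)))) (g1 n)) =
        asg (z :: ly) := by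
      intro c z
      rw [asg_cons z ly, asg_cons c]
      funext n
      cases n with
      | zero => rfl
      | succ n =>
        show cons z (cons c (asg (ys ++ (l ++ ly)))) (1 + (1 + (ys ++ l).length + n)) = asg ly n
        rw [show 1 + (1 + (ys ++ l).length + n) = ((ys ++ l).length + n) + 1 + 1 by omega]
        show asg (ys ++ (l ++ ly)) ((ys ++ l).length + n) = asg ly n
        rw [← List.append_assoc, asg_app_right]
    have e2 : ∀ c z : ZFSet.{0}, (fun n => cons z (asg (c :: (ys ++ (l ++ ly)))) (g2 n)) =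
        asg (c :: (z :: ys ++ l)) := by
      intro c z
      rw [List.cons_append, asg_cons c, asg_cons c, asg_cons z]
      funext n
      match n with
      | 0 => rfl
      | 1 => rfl
      | n + 2 =>
        show cons z (cons c (asg (ys ++ (l ++ ly)))) (if n < (ys ++ l).length then n + 2 else
          1 + (1 + ((ys ++ l).length + ly.length))) = asg (ys ++ l) n
        by_cases hn : n < (ys ++ l).length
        · rw [if_pos hn]
          show asg (ys ++ (l ++ ly)) n = asg (ys ++ l) n
          rw [← List.append_assoc, asg_app_left hn]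
        · rw [if_neg hn, asg_big (not_lt.1 hn),
            show 1 + (1 + ((ys ++ l).length + ly.length)) = ((ys ++ l).length + ly.length) + 1 + 1
              by omega]
          show asg (ys ++ (l ++ ly)) ((ys ++ l).length + ly.length) = ∅
          apply asg_big
          simp only [List.length_append]
          omega
    have key : ∀ c : ZFSet.{0}, Sat A (.neg (.all (.neg (.and (SOCat.ren g1 φ)
        (SOCat.ren g2 ψ))))) (asg (c :: (ys ++ (l ++ ly)))) ↔ ∃ z ∈ A, Sat A φ (asg (z :: ly)) ∧
          Sat A ψ (asg (c :: (z :: ys ++ l))) := by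
      intro c
      simp only [Sat, sat_ren, e1, e2]
      push Not
      rfl
    refine ih (.neg (.all (.neg (.and (SOCat.ren g1 φ) (SOCat.ren g2 ψ))))) (l ++ ly) b
      (fun z hz => hy z (by simp [hz])) ?_ hb ?_ ?_
    · intro x hx
      rcases List.mem_append.1 hx with h | h
      · exact hl x h
      · exact hly x h
    · rw [key]
      exact ⟨y, hyA, hy1, h1⟩
    · intro c hc h
      rw [key] at h
      obtain ⟨z, hz, h3, h4⟩ := h
      have := hy2 z hz h3
      subst this
      exact h2 c hc h4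

theorem closed' {A : ZFSet.{0}} {X : ZFSet.{0} → Prop} (ψ : Fml) (v : ℕ → ZFSet.{0})
    (hv : ∀ n, v n ∈ dcl A X) (b : ZFSet.{0}) (hb : b ∈ A) (h1 : Sat A ψ (cons b v))
    (h2 : ∀ c ∈ A, Sat A ψ (cons c v) → c = b) : b ∈ dcl A X := by
  obtain ⟨N, hN⟩ := sat_agree ψ
  have key : ∀ c : ZFSet.{0}, Sat A ψ (asg (c :: (List.ofFn (fun i : Fin N => v i.1) ++ []))) ↔
      Sat A ψ (cons c v) := by
    intro c
    apply hN
    intro n hn
    rw [List.append_nil, asg_cons]
    cases n with
    | zero => rfl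
    | succ n =>
      show asg _ n = v n
      unfold asg
      rw [List.getD_eq_getElem _ _ (by simp; omega)]
      simp
  refine closed (List.ofFn (fun i : Fin N => v i.1)) ψ [] b ?_ (by simp) hb ?_ ?_
  · intro y hy
    rw [List.mem_ofFn] at hy
    obtain ⟨i, rfl⟩ := hy
    exact hv _
  · rw [key]; exact h1
  · intro c hc h
    rw [key] at h
    exact h2 c hc h

theorem el (h1 : T_ORD) (h2 : T_LT) {A : ZFSet.{0}} {X : ZFSet.{0} → Prop} (hA : Good A) :
    El (dcl A X) A := by
  have hsub : dcl A X ⊆ A := fun b hb => by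
    obtain ⟨φ, l, _, h⟩ := mem_dcl.1 hb
    exact h.1
  refine ⟨hsub, ?_⟩
  intro φ
  induction φ with
  | mem i j => intro v _; rfl
  | eq i j => intro v _; rfl
  | neg φ ih => intro v hv; exact not_congr (ih v hv)
  | and φ ψ ih1 ih2 => intro v hv; exact and_congr (ih1 v hv) (ih2 v hv)
  | all φ ih =>
    intro v hv
    constructor
    · intro hY
      by_contra hc
      have hne : {a | a ∈ A ∧ ¬ Sat A φ (cons a v)}.Nonempty := by
        by_contra hn
        apply hc
        intro a ha
        by_contra hs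
        exact hn ⟨a, ha, hs⟩
      obtain ⟨hm1, hm2⟩ := h1.wf.min_mem _ hne
      have hm3 := fun x hx => h1.wf.not_lt_min {a | a ∈ A ∧ ¬ Sat A φ (cons a v)} (x := x) hx
      set a0 := h1.wf.min _ hne with ha0
      have hφ : Dfn Good (fun A w => Sat A φ w) := ⟨φ, fun _ _ _ _ => Iff.rfl⟩
      let g : ℕ → ℕ := fun n => match n with
        | 0 => 0
        | n + 1 => n + 2
      have hD : Dfn Good (fun A w => ¬ Sat A φ w ∧ ∀ c ∈ A, ltL c (w 0) →
          Sat A φ (cons c (fun n => w (n + 1)))) := by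
        refine (hφ.not.and ((h2.imp (hφ.ren g)).all)).congr ?_
        intro A hA w hw
        refine and_congr_right fun _ => forall₂_congr fun c hc => ?_
        refine imp_congr Iff.rfl ?_
        have : (fun n => cons c w (g n)) = cons c (fun n => w (n + 1)) := by
          funext n
          cases n <;> rfl
        rw [this]
      obtain ⟨ψ, hψ⟩ := hD
      have hvA : ∀ n, v n ∈ A := fun n => hsub (hv n)
      have hmem : a0 ∈ dcl A X := by
        refine closed' ψ v hv a0 hm1 ?_ ?_
        · rw [hψ A hA _ (cons_mem hm1 hvA)]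
          refine ⟨hm2, fun c hc hlt => ?_⟩
          by_contra hs
          exact hm3 c ⟨hc, hs⟩ hlt
        · intro c hc hs
          rw [hψ A hA _ (cons_mem hc hvA)] at hs
          obtain ⟨hs1, hs2⟩ := hs
          obtain ⟨_, β, _, _, hβ⟩ := hA.hist c hc
          obtain ⟨_, β', _, _, hβ'⟩ := hA.hist a0 hm1
          rcases h1.tri β β' c a0 hβ hβ' with h | h | h
          · exact absurd h (hm3 c ⟨hc, hs1⟩)
          · exact h
          · exact absurd (hs2 a0 hm1 h) hm2
      have := hY a0 hmem
      rw [ih _ (cons_mem hmem hv)] at this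
      exact hm2 this
    · intro hA' a ha
      rw [ih _ (cons_mem ha hv)]
      exact hA' a (hsub ha)

theorem task (h1 : T_ORD) (h2 : T_LT) : T_DCL where
  el := fun A X hA _ => el h1 h2 hA
  sub := by
    intro A X hX x hx
    refine mem_dcl.2 ⟨.eq 0 1, [x], by simpa using hx, hX x hx, rfl, ?_⟩
    intro c _ hc
    exact hc
  card := by
    classical
    intro A Z
    refine (card_le_of (α := Fml × List (Shrink.{0} Z)) (fun q =>
      if h : ∃ b, UniqDef A q.1 (q.2.map (sv Z)) b then h.choose else ∅) ?_).trans ?_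
    · intro b hb
      obtain ⟨φ, l, hl, hu⟩ := mem_dcl.1 hb
      obtain ⟨l', hl'⟩ := list_surj hl
      refine ⟨(φ, l'), ?_⟩
      have hex : ∃ b, UniqDef A φ (l'.map (sv Z)) b := ⟨b, by rw [hl']; exact hu⟩
      simp only
      rw [dif_pos hex]
      have hs := hex.choose_spec
      have hu' := hu
      rw [← hl'] at hu'
      exact hs.2.2 b hu'.1 hu'.2.1
    · rw [Cardinal.mk_prod, Cardinal.lift_id, Cardinal.lift_id]
      refine Cardinal.mul_le_of_le (le_max_left _ _) ?_ ?_
      · exact (Cardinal.mk_le_aleph0).trans (le_max_left _ _)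
      · exact Cardinal.mk_list_le_max _
  least := by
    intro A Y X hA h0 hE hX b hb
    obtain ⟨φ, l, hl, hb1, hb2, hb3⟩ := mem_dcl.1 hb
    have hl' : ∀ n, asg l n ∈ Y := by
      intro n
      by_cases hn : n < l.length
      · unfold asg
        rw [List.getD_eq_getElem _ _ hn]
        exact hX _ (hl _ (List.getElem_mem hn))
      · rw [asg_big (not_lt.1 hn)]
        exact h0
    have h1 := hE.2 (.neg (.all (.neg φ))) (asg l) hl'
    have h2 : Sat A (.neg (.all (.neg φ))) (asg l) := by
      intro h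
      exact h b hb1 (by rw [← asg_cons]; exact hb2)
    have h3 := h1.2 h2
    have h4 : ∃ c ∈ Y, Sat Y φ (cons c (asg l)) := by
      by_contra hc
      apply h3
      intro c hcY hs
      exact hc ⟨c, hcY, hs⟩
    obtain ⟨c, hc, hs⟩ := h4
    rw [hE.2 φ _ (cons_mem hc hl'), ← asg_cons] at hs
    rw [← hb3 c (hE.1 hc) hs]
    exact hc

end Pool.Agent.W928.VL.DCL
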