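import Pool.Agent.W886.VL.Stm

/-!
# VL-ORD: the canonical order of `L` is a well-order
-/

namespace Pool.Agent.W928.VL.ORD

open Pool.Agent.W886.VL
open SOCat
open ZFSet (pair omega)

/-- `x` appears first in `Def (L β)` -/
def New (β : Ordinal.{0}) (x : ZFSet.{0}) : Prop := x ∈ Def (L β) ∧ x ∉ L β

theorem def_sub {β γ : Ordinal.{0}} (h : β < γ) {x : ZFSet.{0}} (hx : x ∈ Def (L β)) :
    x ∈ L γ := mem_L.2 ⟨β, h, hx⟩

theorem New.lt {β α : Ordinal.{0}} {x : ZFSet.{0}} (h : New β x) (hx : x ∈ L α) : β < α := by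
  by_contra hc
  exact h.2 (L_mono (not_lt.1 hc) hx)

theorem New.mem_Def {β γ : Ordinal.{0}} {x : ZFSet.{0}} (h : New β x) :
    x ∈ Def (L γ) ↔ β ≤ γ := by
  constructor
  · intro hx
    by_contra hc
    exact h.2 (def_sub (not_le.1 hc) hx)
  · intro hle
    rcases hle.lt_or_eq with h1 | h1
    · exact sub_Def (L_trans γ) (def_sub h1 h.1)
    · exact h1 ▸ h.1

theorem New.mem_L {β α : Ordinal.{0}} {x : ZFSet.{0}} (h : New β x) : x ∈ L α ↔ β < α :=
  ⟨h.lt, fun h' => def_sub h' h.1⟩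

theorem New.uniq {β γ : Ordinal.{0}} {x : ZFSet.{0}} (h : New β x) (h' : New γ x) : β = γ :=
  le_antisymm (h.mem_Def.1 h'.1) (h'.mem_Def.1 h.1)

/-- an explicit description of `ltL` -/
def ltN (x x' : ZFSet.{0}) : Prop := ∃ β β' : Ordinal.{0}, New β x ∧ New β' x' ∧
  (β < β' ∨ (β = β' ∧ newLt (L β) (rel β) x x'))

theorem rel_def {α : Ordinal.{0}} {x x' : ZFSet.{0}} : rel α x x' ↔ x ∈ L α ∧ x' ∈ L α ∧
    ∃ β < α, (x ∈ Def (L β) ∧ x' ∉ Def (L β)) ∨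
    (x ∈ Def (L β) ∧ x' ∈ Def (L β) ∧ x ∉ L β ∧ x' ∉ L β ∧ newLt (L β) (rel β) x x') := by
  rw [rel]
  constructor
  · rintro ⟨h1, h2, ⟨β, hβ⟩, h3⟩
    exact ⟨h1, h2, β, hβ, h3⟩
  · rintro ⟨h1, h2, β, hβ, h3⟩
    exact ⟨h1, h2, ⟨β, hβ⟩, h3⟩

theorem rel_iff' {α : Ordinal.{0}} {x x' : ZFSet.{0}} :
    rel α x x' ↔ x ∈ L α ∧ x' ∈ L α ∧ ltN x x' := by
  rw [rel_def]
  refine and_congr_right fun hx => and_congr_right fun hx' => ?_
  obtain ⟨β, hβ, h1, h2⟩ := exists_new hx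
  obtain ⟨β', hβ', h1', h2'⟩ := exists_new hx'
  have hN : New β x := ⟨h1, h2⟩
  have hN' : New β' x' := ⟨h1', h2'⟩
  constructor
  · rintro ⟨γ, hγ, ⟨h3, h4⟩ | ⟨h3, h4, h5, h6, h7⟩⟩
    · refine ⟨β, β', hN, hN', Or.inl ?_⟩
      rw [hN.mem_Def] at h3
      rw [hN'.mem_Def] at h4
      exact h3.trans_lt (not_le.1 h4)
    · have e1 := hN.uniq ⟨h3, h5⟩
      have e2 := hN'.uniq ⟨h4, h6⟩
      subst e1
      subst e2
      exact ⟨_, _, hN, hN', Or.inr ⟨rfl, h7⟩⟩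
  · rintro ⟨γ, γ', g1, g2, g3⟩
    have e1 := hN.uniq g1
    have e2 := hN'.uniq g2
    subst e1
    subst e2
    rcases g3 with g3 | ⟨g3, g4⟩
    · exact ⟨β, hβ, Or.inl ⟨h1, fun h => absurd (hN'.mem_Def.1 h) (not_le.2 g3)⟩⟩
    · subst g3
      exact ⟨_, hβ, Or.inr ⟨h1, h1', h2, h2', g4⟩⟩

theorem ltL_iff {x x' : ZFSet.{0}} : ltL x x' ↔ ltN x x' := by
  constructor
  · rintro ⟨α, h⟩
    exact (rel_iff'.1 h).2.2
  · intro h
    obtain ⟨β, β', h1, h2, h3⟩ := id h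
    refine ⟨max β β' + 1, rel_iff'.2 ⟨?_, ?_, h⟩⟩
    · exact h1.mem_L.2 (lt_of_le_of_lt (le_max_left _ _) (Order.lt_add_one_iff.2 le_rfl))
    · exact h2.mem_L.2 (lt_of_le_of_lt (le_max_right _ _) (Order.lt_add_one_iff.2 le_rfl))

theorem rel_iff'' {α : Ordinal.{0}} {x x' : ZFSet.{0}} :
    rel α x x' ↔ x ∈ L α ∧ x' ∈ L α ∧ ltL x x' := by
  rw [rel_iff', ltL_iff]

theorem init' {α : Ordinal.{0}} {x y : ZFSet.{0}} (hy : y ∈ L α) (h : ltL x y) : x ∈ L α := by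
  rw [ltL_iff] at h
  obtain ⟨β, β', h1, h2, h3⟩ := h
  rw [h1.mem_L]
  rw [h2.mem_L] at hy
  rcases h3 with h3 | ⟨h3, _⟩
  · exact h3.trans hy
  · exact h3 ▸ hy

theorem new_empty : New 0 ∅ := ⟨empty_mem_Def _, by rw [L_zero]; exact ZFSet.notMem_empty _⟩

theorem newLt_zero {r : ZFSet.{0} → ZFSet.{0} → Prop} {x x' : ZFSet.{0}} :
    ¬ newLt (L 0) r x x' := by
  rintro ⟨φ, s, hs, _⟩
  have := hs.empty_mem
  rw [L_zero] at this
  exact ZFSet.notMem_empty _ this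

/-- `∅` is least. -/
theorem not_ltL_empty {x : ZFSet.{0}} : ¬ ltL x ∅ := by
  rw [ltL_iff]
  rintro ⟨β, β', h1, h2, h3⟩
  have e := new_empty.uniq h2
  subst e
  rcases h3 with h3 | ⟨h3, h4⟩
  · exact absurd h3 (by simp)
  · subst h3
    exact newLt_zero h4

/-! ### the order of finitely supported sequences -/

section seq

variable {y : ZFSet.{0}} {r : ZFSet.{0} → ZFSet.{0} → Prop}

/-- the order of the finitely supported sequences -/
def ltS (y : ZFSet.{0}) (r : ZFSet.{0} → ZFSet.{0} → Prop) (s s' : ℕ → ZFSet.{0}) : Prop :=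
  FSup y s ∧ FSup y s' ∧ ltF r s s'

theorem ltS_acc (hr : WellFounded r) (h0 : ∀ x, ¬ r x ∅) (N : ℕ) (s : ℕ → ZFSet.{0})
    (hs : ∀ n, N ≤ n → s n = ∅) : Acc (ltS y r) s := by
  have key : WellFounded (Pi.Lex (· > ·) (fun {_ : Fin N} => r)) :=
    Pi.Lex.wellFounded _ (fun _ => hr)
  suffices H : ∀ (t : Fin N → ZFSet.{0}) (s : ℕ → ZFSet.{0}), (fun i : Fin N => s i.1) = t →
      (∀ n, N ≤ n → s n = ∅) → Acc (ltS y r) s from H _ s rfl hs
  intro t
  induction t using key.induction with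
  | _ t ih =>
  intro s hst hs
  refine Acc.intro _ ?_
  rintro s' ⟨h1, h2, k, h3, h4⟩
  have hk : k < N := by
    by_contra hc
    rw [hs k (not_lt.1 hc)] at h3
    exact h0 _ h3
  refine ih (fun i : Fin N => s' i.1) ?_ s' rfl ?_
  · subst hst
    exact ⟨⟨k, hk⟩, fun j hj => h4 j.1 hj, h3⟩
  · intro n hn
    rw [h4 n (lt_of_lt_of_le hk hn)]
    exact hs n hn

theorem ltS_wf (hr : WellFounded r) (h0 : ∀ x, ¬ r x ∅) : WellFounded (ltS y r) := by
  refine ⟨fun s => ?_⟩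
  by_cases hs : FSup y s
  · obtain ⟨_, N, hN⟩ := hs
    exact ltS_acc hr h0 N s hN
  · exact Acc.intro _ (fun s' h => absurd h.2.1 hs)

theorem ltF_tri (ht : ∀ a ∈ y, ∀ b ∈ y, r a b ∨ a = b ∨ r b a) {s s' : ℕ → ZFSet.{0}}
    (hs : FSup y s) (hs' : FSup y s') : ltF r s s' ∨ s = s' ∨ ltF r s' s := by
  classical
  by_cases he : s = s'
  · exact Or.inr (Or.inl he)
  obtain ⟨h1, N, hN⟩ := hs
  obtain ⟨h1', N', hN'⟩ := hs'
  have hne : ∃ k, s k ≠ s' k := by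
    by_contra hc
    push Not at hc
    exact he (funext hc)
  obtain ⟨k0, hk0⟩ := hne
  have hb : ∀ k, s k ≠ s' k → k ≤ max N N' := by
    intro k hk
    by_contra hc
    push Not at hc
    apply hk
    rw [hN k ((le_max_left _ _).trans hc.le), hN' k ((le_max_right _ _).trans hc.le)]
  have hg := Nat.findGreatest_spec (P := fun k => s k ≠ s' k) (hb k0 hk0) hk0
  set k := Nat.findGreatest (fun k => s k ≠ s' k) (max N N') with hkdef
  have hk : ∀ j, k < j → s j = s' j := by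
    intro j hj
    by_contra hc
    exact absurd (Nat.le_findGreatest (P := fun k => s k ≠ s' k) (hb j hc) hc) (not_le.2 hj)
  rcases ht (s k) (h1 k) (s' k) (h1' k) with h | h | h
  · exact Or.inl ⟨k, h, hk⟩
  · exact absurd h hg
  · exact Or.inr (Or.inr ⟨k, h, fun j hj => (hk j hj).symm⟩)

/-- the order of the codes -/
def ltC (y : ZFSet.{0}) (r : ZFSet.{0} → ZFSet.{0} → Prop) (p p' : ℕ × (ℕ → ZFSet.{0})) : Prop :=
  FSup y p.2 ∧ FSup y p'.2 ∧ (p.1 < p'.1 ∨ (p.1 = p'.1 ∧ ltF r p.2 p'.2))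

theorem ltC_wf (hr : WellFounded r) (h0 : ∀ x, ¬ r x ∅) : WellFounded (ltC y r) := by
  have h1 : WellFounded (Prod.Lex ((· < ·) : ℕ → ℕ → Prop) (ltS y r)) :=
    WellFounded.prod_lex (wellFounded_lt) (ltS_wf hr h0)
  refine Subrelation.wf ?_ h1
  rintro ⟨n, s⟩ ⟨n', s'⟩ ⟨h2, h3, h4⟩
  rcases h4 with h4 | ⟨h4, h5⟩
  · exact Prod.Lex.left _ _ h4
  · simp only at h4
    subst h4
    exact Prod.Lex.right _ ⟨h2, h3, h5⟩

theorem ltC_tri (ht : ∀ a ∈ y, ∀ b ∈ y, r a b ∨ a = b ∨ r b a) {p p' : ℕ × (ℕ → ZFSet.{0})}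
    (hs : FSup y p.2) (hs' : FSup y p'.2) : ltC y r p p' ∨ p = p' ∨ ltC y r p' p := by
  rcases lt_trichotomy p.1 p'.1 with h | h | h
  · exact Or.inl ⟨hs, hs', Or.inl h⟩
  · rcases ltF_tri ht hs hs' with h' | h' | h'
    · exact Or.inl ⟨hs, hs', Or.inr ⟨h, h'⟩⟩
    · exact Or.inr (Or.inl (Prod.ext h h'))
    · exact Or.inr (Or.inr ⟨hs', hs, Or.inr ⟨h.symm, h'⟩⟩)
  · exact Or.inr (Or.inr ⟨hs', hs, Or.inl h⟩)

theorem ltC_trans (hr : WellFounded r) (h0 : ∀ x, ¬ r x ∅)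
    (ht : ∀ a ∈ y, ∀ b ∈ y, r a b ∨ a = b ∨ r b a) {p q t : ℕ × (ℕ → ZFSet.{0})}
    (h1 : ltC y r p q) (h2 : ltC y r q t) : ltC y r p t := by
  have hwf := ltC_wf (y := y) hr h0
  rcases ltC_tri ht h1.1 h2.2.1 with h | h | h
  · exact h
  · subst h
    exact absurd h2 (hwf.asymmetric _ _ h1)
  · exfalso
    -- a cycle of length three
    have hne : ({p, q, t} : Set (ℕ × (ℕ → ZFSet.{0}))).Nonempty := ⟨p, by simp⟩
    have hm := hwf.min_mem _ hne
    have hl := fun x hx => hwf.not_lt_min {p, q, t} (x := x) hx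
    simp only [Set.mem_insert_iff, Set.mem_singleton_iff] at hm
    rcases hm with hm | hm | hm
    · exact hl t (by simp) (by rw [hm]; exact h)
    · exact hl p (by simp) (by rw [hm]; exact h1)
    · exact hl q (by simp) (by rw [hm]; exact h2)

end seq

theorem defBy_ext {y x x' : ZFSet.{0}} {φ : NF} {s : ℕ → ZFSet.{0}} (h : DefBy y φ s x)
    (h' : DefBy y φ s x') : x = x' := by
  ext a
  constructor
  · intro ha
    exact (h'.2 a (h.1 ha)).2 ((h.2 a (h.1 ha)).1 ha)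
  · intro ha
    exact (h.2 a (h'.1 ha)).2 ((h'.2 a (h'.1 ha)).1 ha)

/-- `p` is a code of `x` -/
def Code (y : ZFSet.{0}) (p : ℕ × (ℕ → ZFSet.{0})) (x : ZFSet.{0}) : Prop :=
  ∃ φ : NF, φ.code = p.1 ∧ FSup y p.2 ∧ DefBy y φ p.2 x

theorem newLt_iff {y : ZFSet.{0}} {r : ZFSet.{0} → ZFSet.{0} → Prop} {x x' : ZFSet.{0}} :
    newLt y r x x' ↔ ∃ p, Code y p x ∧ ∀ p', Code y p' x' → ltC y r p p' := by
  constructor
  · rintro ⟨φ, s, h1, h2, h3⟩
    refine ⟨(φ.code, s), ⟨φ, rfl, h1, h2⟩, ?_⟩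
    rintro ⟨n, s'⟩ ⟨φ', h4, h5, h6⟩
    simp only at h4
    subst h4
    exact ⟨h1, h5, h3 φ' s' h5 h6⟩
  · rintro ⟨⟨n, s⟩, ⟨φ, h1, h2, h3⟩, h4⟩
    simp only at h1
    subst h1
    refine ⟨φ, s, h2, h3, fun φ' s' h5 h6 => ?_⟩
    exact (h4 (φ'.code, s') ⟨φ', rfl, h5, h6⟩).2.2

theorem Code.ext {y x x' : ZFSet.{0}} {p : ℕ × (ℕ → ZFSet.{0})} (h : Code y p x)
    (h' : Code y p x') : x = x' := by
  obtain ⟨φ, h1, h2, h3⟩ := h
  obtain ⟨φ', h1', h2', h3'⟩ := h'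
  have : φ = φ' := code_inj (h1.trans h1'.symm)
  subst this
  exact defBy_ext h3 h3'

/-- the induction hypothesis: `ltL` is a well-order on `L β` -/
structure WO (β : Ordinal.{0}) : Prop where
  acc : ∀ x ∈ L β, Acc ltL x
  tri : ∀ x ∈ L β, ∀ y ∈ L β, ltL x y ∨ x = y ∨ ltL y x

theorem WO.wf {β : Ordinal.{0}} (h : WO β) : WellFounded (rel β) := by
  refine ⟨fun x => ?_⟩
  by_cases hx : x ∈ L β
  · have := h.acc x hx
    refine Subrelation.accessible ?_ this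
    intro a b hab
    exact (rel_iff''.1 hab).2.2
  · exact Acc.intro _ (fun y hy => absurd (rel_iff''.1 hy).2.1 hx)

theorem WO.tri' {β : Ordinal.{0}} (h : WO β) : ∀ a ∈ L β, ∀ b ∈ L β,
    rel β a b ∨ a = b ∨ rel β b a := by
  intro a ha b hb
  rcases h.tri a ha b hb with h' | h' | h'
  · exact Or.inl (rel_iff''.2 ⟨ha, hb, h'⟩)
  · exact Or.inr (Or.inl h')
  · exact Or.inr (Or.inr (rel_iff''.2 ⟨hb, ha, h'⟩))

theorem rel_empty {β : Ordinal.{0}} : ∀ x, ¬ rel β x ∅ := fun _ h =>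
  not_ltL_empty (rel_iff''.1 h).2.2

theorem acc_new {β : Ordinal.{0}} (h : WO β) (hD : T_DEF) {x : ZFSet.{0}} (hx : New β x) :
    Acc ltL x := by
  have hlow : ∀ (x x' : ZFSet.{0}), New β x → ltL x' x → x' ∈ L β ∨
      (New β x' ∧ newLt (L β) (rel β) x' x) := by
    intro x x' hx hlt
    rw [ltL_iff] at hlt
    obtain ⟨γ, γ', h1, h2, h3⟩ := hlt
    have e := hx.uniq h2
    subst e
    rcases h3 with h3 | ⟨h3, h4⟩
    · exact Or.inl (h1.mem_L.2 h3)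
    · subst h3
      exact Or.inr ⟨h1, h4⟩
  rcases (show (0 : Ordinal.{0}) = β ∨ 0 < β from eq_or_lt_of_le (bot_le (a := β))) with h0 | h0
  · subst h0
    refine Acc.intro _ (fun x' hx' => ?_)
    rcases hlow x x' hx hx' with h1 | h1
    · exact h.acc x' h1
    · exact absurd h1.2 newLt_zero
  · obtain ⟨φ, s, hs, hφ⟩ := (hD (L β) (L_trans β) (empty_mem_L h0) x).1 hx.1
    have key := ltC_wf (y := L β) h.wf rel_empty
    suffices H : ∀ (p : ℕ × (ℕ → ZFSet.{0})) (x : ZFSet.{0}), New β x → Code (L β) p x →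
        Acc ltL x from H (φ.code, s) x hx ⟨φ, rfl, hs, hφ⟩
    intro p
    induction p using key.induction with
    | _ p ih =>
    intro x hx hp
    refine Acc.intro _ (fun x' hx' => ?_)
    rcases hlow x x' hx hx' with h1 | h1
    · exact h.acc x' h1
    · obtain ⟨p', hp', h2⟩ := newLt_iff.1 h1.2
      exact ih p' (h2 p hp) x' h1.1 hp'

theorem tri_new {β : Ordinal.{0}} (h : WO β) (hD : T_DEF) {x x' : ZFSet.{0}} (hx : New β x)
    (hx' : New β x') : ltL x x' ∨ x = x' ∨ ltL x' x := by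
  rcases (show (0 : Ordinal.{0}) = β ∨ 0 < β from eq_or_lt_of_le (bot_le (a := β))) with h0 | h0
  · subst h0
    right; left
    have h1 := hx.1
    have h2 := hx'.1
    rw [L_zero, Def_empty] at h1 h2
    rw [h1, h2]
  · obtain ⟨φ, s, hs, hφ⟩ := (hD (L β) (L_trans β) (empty_mem_L h0) x).1 hx.1
    obtain ⟨φ', s', hs', hφ'⟩ := (hD (L β) (L_trans β) (empty_mem_L h0) x').1 hx'.1
    have key := ltC_wf (y := L β) h.wf rel_empty
    have hne : {p | Code (L β) p x}.Nonempty := ⟨(φ.code, s), φ, rfl, hs, hφ⟩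
    have hne' : {p | Code (L β) p x'}.Nonempty := ⟨(φ'.code, s'), φ', rfl, hs', hφ'⟩
    have m1 : Code (L β) (key.min _ hne) x := key.min_mem _ hne
    have m1' : Code (L β) (key.min _ hne') x' := key.min_mem _ hne'
    have m2 := fun p hp => key.not_lt_min {p | Code (L β) p x} (x := p) hp
    have m2' := fun p hp => key.not_lt_min {p | Code (L β) p x'} (x := p) hp
    set p := key.min _ hne with hp
    set p' := key.min _ hne' with hp'
    have f1 : FSup (L β) p.2 := by obtain ⟨_, _, h, _⟩ := m1; exact h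
    have f1' : FSup (L β) p'.2 := by obtain ⟨_, _, h, _⟩ := m1'; exact h
    rcases ltC_tri h.tri' f1 f1' with h1 | h1 | h1
    · left
      rw [ltL_iff]
      refine ⟨β, β, hx, hx', Or.inr ⟨rfl, newLt_iff.2 ⟨p, m1, fun q hq => ?_⟩⟩⟩
      have fq : FSup (L β) q.2 := by obtain ⟨_, _, h, _⟩ := hq; exact h
      rcases ltC_tri h.tri' f1' fq with h2 | h2 | h2
      · exact ltC_trans h.wf rel_empty h.tri' h1 h2
      · rw [← h2]; exact h1
      · exact absurd h2 (m2' q hq)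
    · right; left
      rw [← h1] at m1'
      exact m1.ext m1'
    · right; right
      rw [ltL_iff]
      refine ⟨β, β, hx', hx, Or.inr ⟨rfl, newLt_iff.2 ⟨p', m1', fun q hq => ?_⟩⟩⟩
      have fq : FSup (L β) q.2 := by obtain ⟨_, _, h, _⟩ := hq; exact h
      rcases ltC_tri h.tri' f1 fq with h2 | h2 | h2
      · exact ltC_trans h.wf rel_empty h.tri' h1 h2
      · rw [← h2]; exact h1
      · exact absurd h2 (m2 q hq)

theorem wo (hD : T_DEF) (α : Ordinal.{0}) : WO α := by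
  induction α using WellFoundedLT.induction with
  | _ α ih =>
  refine ⟨?_, ?_⟩
  · intro x hx
    obtain ⟨β, hβ, h1, h2⟩ := exists_new hx
    exact acc_new (ih β hβ) hD ⟨h1, h2⟩
  · intro x hx y hy
    obtain ⟨β, hβ, h1, h2⟩ := exists_new hx
    obtain ⟨β', hβ', h1', h2'⟩ := exists_new hy
    rcases lt_trichotomy β β' with h | h | h
    · exact Or.inl (ltL_iff.2 ⟨β, β', ⟨h1, h2⟩, ⟨h1', h2'⟩, Or.inl h⟩)
    · subst h
      exact tri_new (ih _ hβ) hD ⟨h1, h2⟩ ⟨h1', h2'⟩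
    · exact Or.inr (Or.inr (ltL_iff.2 ⟨β', β, ⟨h1', h2'⟩, ⟨h1, h2⟩, Or.inl h⟩))

theorem wfL (hD : T_DEF) : WellFounded ltL := by
  refine ⟨fun x => ?_⟩
  by_cases hx : ∃ α, x ∈ L α
  · obtain ⟨α, hα⟩ := hx
    exact (wo hD α).acc x hα
  · refine Acc.intro _ (fun y hy => ?_)
    obtain ⟨α, h⟩ := hy
    exact absurd ⟨α, (rel_iff''.1 h).2.1⟩ hx

theorem task (h : T_DEF) : T_ORD where
  wf := wfL h
  trans := by
    intro x y z hxy hyz
    have hwf := wfL h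
    obtain ⟨α, hα⟩ := id hxy
    obtain ⟨β, hβ⟩ := id hyz
    have hx := (rel_iff''.1 hα).1
    have hz := (rel_iff''.1 hβ).2.1
    have hx' : x ∈ L (max α β) := L_mono (le_max_left _ _) hx
    have hz' : z ∈ L (max α β) := L_mono (le_max_right _ _) hz
    rcases (wo h (max α β)).tri x hx' z hz' with h1 | h1 | h1
    · exact h1
    · subst h1
      exact absurd hyz (hwf.asymmetric _ _ hxy)
    · exfalso
      have hne : ({x, y, z} : Set ZFSet.{0}).Nonempty := ⟨x, by simp⟩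
      have hm := hwf.min_mem _ hne
      have hl := fun w hw => hwf.not_lt_min {x, y, z} (x := w) hw
      simp only [Set.mem_insert_iff, Set.mem_singleton_iff] at hm
      rcases hm with hm | hm | hm
      · exact hl z (by simp) (by rw [hm]; exact h1)
      · exact hl x (by simp) (by rw [hm]; exact hxy)
      · exact hl y (by simp) (by rw [hm]; exact hyz)
  tri := by
    intro α β x y hx hy
    exact (wo h (max α β)).tri x (L_mono (le_max_left _ _) hx) y (L_mono (le_max_right _ _) hy)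
  mem := by
    intro α x y hy hxy
    obtain ⟨β, hβ, h1, h2⟩ := exists_new hy
    have hx : x ∈ L β := (mem_Def.1 h1).1 hxy
    obtain ⟨γ, hγ, h3, h4⟩ := exists_new hx
    exact ltL_iff.2 ⟨γ, β, ⟨h3, h4⟩, ⟨h1, h2⟩, Or.inl hγ⟩
  rel_iff := fun α x y => rel_iff''
  init := fun α x y hy hxy => init' hy hxy

end Pool.Agent.W928.VL.ORD
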