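import Pool.Agent.W886.VL.Stm
import Pool.Agent.W928.VL.HH

/-!
# VL-HHV: under `V = L` the sets `HH M` are good and increasing
-/

namespace Pool.Agent.W928.VL.HHV

open Pool.Agent.W886.VL
open SOCat
open ZFSet (pair omega)
open Pool.Agent.W928.VL.HH (mem_mos mem_HH mem_HH' card_le_of)

theorem lt_add1 (α : Ordinal.{0}) : α < α + 1 := Order.lt_add_one_iff.2 le_rfl

theorem exists_theta (f : Ordinal.{0} → Ordinal.{0}) (o : Ordinal.{0}) : ∃ θ, o ≤ θ ∧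
    (∀ α < θ, α + 1 < θ) ∧ ∀ α < θ, f α ≤ θ := by
  let g : Ordinal.{0} → Ordinal.{0} := fun p => max (p + 1) (⨆ a : Set.Iio (p + 1), f a.1)
  have hg1 : ∀ p, p + 1 ≤ g p := fun p => le_max_left _ _
  have hg2 : ∀ p, ∀ a ≤ p, f a ≤ g p := by
    intro p a ha
    exact (Ordinal.le_iSup (fun a : Set.Iio (p + 1) => f a.1)
      ⟨a, Order.lt_add_one_iff.2 ha⟩).trans (le_max_right _ _)
  let t : ℕ → Ordinal.{0} := fun n => g^[n] o
  have ht : ∀ n, t (n+1) = g (t n) := fun n => Function.iterate_succ_apply' g n o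
  have hlt : ∀ n, t n < t (n + 1) := fun n => by
    rw [ht]
    exact (lt_add1 _).trans_le (hg1 _)
  refine ⟨⨆ n, t n, Ordinal.le_iSup t 0, ?_, ?_⟩
  · intro α hα
    obtain ⟨n, hn⟩ := Ordinal.lt_iSup_iff.1 hα
    exact (lt_of_le_of_lt (Order.add_one_le_of_lt hn) (hlt n)).trans_le (Ordinal.le_iSup t (n+1))
  · intro α hα
    obtain ⟨n, hn⟩ := Ordinal.lt_iSup_iff.1 hα
    refine le_trans ?_ (Ordinal.le_iSup t (n+1))
    rw [ht]
    exact hg2 _ _ hn.le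

theorem pair_mem_Def {A a b : ZFSet.{0}} (ha : a ∈ A) (hb : b ∈ A) :
    ({a, b} : ZFSet.{0}) ∈ Def A := by
  rw [mem_Def]
  refine ⟨?_, Or.inr ⟨.neg (.and (.neg (.eq 0 1)) (.neg (.eq 0 2))), cons a (fun _ => b), ?_, ?_⟩⟩
  · intro x hx
    rcases ZFSet.mem_pair.1 hx with h | h <;> rw [h] <;> assumption
  · intro n
    cases n
    · exact ha
    · exact hb
  · intro x hx
    rw [ZFSet.mem_pair]
    show _ ↔ ¬ (¬ (x = a) ∧ ¬ (x = b))
    tauto

theorem union_mem_Def {A a b : ZFSet.{0}} (hA : A.IsTransitive) (ha : a ∈ A) (hb : b ∈ A) :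
    a ∪ b ∈ Def A := by
  rw [mem_Def]
  refine ⟨?_, Or.inr ⟨.neg (.and (.neg (.mem 0 1)) (.neg (.mem 0 2))), cons a (fun _ => b), ?_, ?_⟩⟩
  · intro x hx
    rcases ZFSet.mem_union.1 hx with h | h
    · exact hA _ ha h
    · exact hA _ hb h
  · intro n
    cases n
    · exact ha
    · exact hb
  · intro x hx
    rw [ZFSet.mem_union]
    show _ ↔ ¬ (¬ (x ∈ a) ∧ ¬ (x ∈ b))
    tauto

theorem common {θ : Ordinal.{0}} (h1 : ∀ α < θ, α + 1 < θ) {a b : ZFSet.{0}} (ha : a ∈ L θ)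
    (hb : b ∈ L θ) : ∃ α < θ, a ∈ L α ∧ b ∈ L α := by
  obtain ⟨β, hβ, h2⟩ := mem_L.1 ha
  obtain ⟨β', hβ', h3⟩ := mem_L.1 hb
  refine ⟨max β β' + 1, h1 _ (max_lt hβ hβ'), mem_L.2 ⟨β, ?_, h2⟩, mem_L.2 ⟨β', ?_, h3⟩⟩
  · exact lt_of_le_of_lt (le_max_left _ _) (lt_add1 _)
  · exact lt_of_le_of_lt (le_max_right _ _) (lt_add1 _)

theorem good_of {θ : Ordinal.{0}} (h1 : ∀ α < θ, α + 1 < θ) (h2 : omega ∈ L θ)
    (h3 : ∀ α < θ, hset α ∈ L θ) : Good (L θ) where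
  tr := L_trans θ
  om := h2
  pr := by
    intro a ha b hb
    obtain ⟨α, hα, ha', hb'⟩ := common h1 ha hb
    exact mem_L.2 ⟨α, hα, pair_mem_Def ha' hb'⟩
  un := by
    intro a ha b hb
    obtain ⟨α, hα, ha', hb'⟩ := common h1 ha hb
    exact mem_L.2 ⟨α, hα, union_mem_Def (L_trans α) ha' hb'⟩
  hist := by
    intro x hx
    obtain ⟨β, hβ, hx'⟩ := mem_L.1 hx
    exact ⟨β + 1 + 1, β + 1, lt_add1 _, h3 _ (h1 _ (h1 _ hβ)), mem_L.2 ⟨β, lt_add1 _, hx'⟩⟩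

theorem exists_good (hV : VeqL) (z : ZFSet.{0}) : ∃ A, Good A ∧ z ∈ A := by
  have hf := fun α : Ordinal.{0} => hV (hset α)
  choose f hf using hf
  obtain ⟨δ, hδ⟩ := hV z
  obtain ⟨δ', hδ'⟩ := hV omega
  obtain ⟨θ, h0, h1, h2⟩ := exists_theta f (max δ δ')
  refine ⟨L θ, good_of h1 ?_ ?_, ?_⟩
  · exact L_mono ((le_max_right _ _).trans h0) hδ'
  · intro α hα
    exact L_mono (h2 α hα) (hf α)
  · exact L_mono ((le_max_left _ _).trans h0) hδ

theorem good_HH (hV : VeqL) (h1 : T_GCOL) (h2 : T_COL) (h3 : T_DCL) (h4 : T_HH)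
    (M : Type) [Infinite M] : Good (HH M) := by
  refine { h4.base M with hist := ?_ }
  intro x hx
  obtain ⟨E, t0, hE, rfl⟩ := mem_HH'.1 hx
  set x := mos E t0 with hxdef
  obtain ⟨A, hA, hxA⟩ := exists_good hV x
  set T0 : ZFSet.{0} := ZFSet.range (fun s : M => mos E s) with hT0
  have hT0' : ∀ y, y ∈ T0 ↔ ∃ s, y = mos E s := by
    intro y
    rw [hT0, ZFSet.mem_range]
    exact exists_congr fun s => eq_comm
  have hT0tr : T0.IsTransitive := by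
    intro y hy z hz
    obtain ⟨s, rfl⟩ := (hT0' y).1 hy
    obtain ⟨s', _, rfl⟩ := (mem_mos hE).1 hz
    exact (hT0' _).2 ⟨s', rfl⟩
  have hT0c : T0.card ≤ Cardinal.mk M :=
    card_le_of (fun s => mos E s) (fun p hp => (hT0' p).1 hp)
  set T := T0 ∩ A with hT
  have hTtr : T.IsTransitive := by
    intro y hy z hz
    rw [hT, ZFSet.mem_inter] at hy
    rw [hT, ZFSet.mem_inter]
    exact ⟨hT0tr _ hy.1 hz, hA.tr _ hy.2 hz⟩
  have hTc : T.card ≤ Cardinal.mk M :=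
    (ZFSet.card_mono (fun y hy => (ZFSet.mem_inter.1 hy).1)).trans hT0c
  have hxT : x ∈ T := ZFSet.mem_inter.2 ⟨(hT0' _).2 ⟨t0, rfl⟩, hxA⟩
  have hTA : ∀ y, y ∈ T → y ∈ A := fun y hy => (ZFSet.mem_inter.1 hy).2
  have hEl := h3.el A (fun y => y ∈ T) hA hTA
  set Y := dcl A (fun y => y ∈ T) with hY
  have hTY : T ⊆ Y := fun y hy => h3.sub A (fun y => y ∈ T) hTA y hy
  have hYne : Y.Nonempty := ⟨x, hTY hxT⟩
  obtain ⟨hB, _⟩ := h1 Y A hA hEl hYne
  have hYc : Y.card ≤ Cardinal.mk M :=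
    (h3.card A T).trans (max_le (Cardinal.aleph0_le_mk M) hTc)
  have hBc : (colS Y).card ≤ Cardinal.mk M := (h2.card Y).trans hYc
  have hBtr := h2.trans Y
  have hxB : x ∈ colS Y := (h2.mem_colS Y x).2 ⟨x, hTY hxT, h2.fix Y T hTtr hTY x hxT⟩
  have hsub : ∀ y, y ∈ colS Y → y ∈ HH M := by
    intro y
    induction y using ZFSet.inductionOn with
    | _ y ih =>
    intro hy
    refine h4.sub M y (fun z hz => ih z hz (hBtr _ hy hz)) ?_
    exact (ZFSet.card_mono (hBtr _ hy)).trans hBc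
  obtain ⟨γ, β, hβ, hγ, hxβ⟩ := hB.hist x hxB
  exact ⟨γ, β, hβ, hsub _ hγ, hxβ⟩

theorem exists_enum {M : Type} (X : ZFSet.{0}) : ∃ g : M → ZFSet.{0},
    X.card ≤ Cardinal.mk M → ∀ x ∈ X, ∃ m, x = g m := by
  by_cases h0 : X.card ≤ Cardinal.mk M ∧ X.Nonempty
  · obtain ⟨hc, x0, hx0⟩ := h0
    have : Nonempty (Shrink.{0} X) := ⟨equivShrink X ⟨x0, hx0⟩⟩
    obtain ⟨⟨f, hf⟩⟩ : Nonempty (Shrink.{0} X ↪ M) := hc
    refine ⟨fun m => ((equivShrink X).symm (Function.invFun f m)).1, fun _ x hx => ?_⟩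
    refine ⟨f (equivShrink X ⟨x, hx⟩), ?_⟩
    show x = ((equivShrink X).symm (Function.invFun f (f (equivShrink X ⟨x, hx⟩)))).1
    rw [Function.leftInverse_invFun hf, Equiv.symm_apply_apply]
  · exact ⟨fun _ => ∅, fun h x hx => absurd ⟨h, ⟨x, hx⟩⟩ h0⟩

theorem card_hset (γ : Ordinal.{0}) : γ.card ≤ (hset γ).card := by
  rw [← Cardinal.mk_toType]
  unfold ZFSet.card
  refine Cardinal.mk_le_of_injective (f := fun a : γ.ToType =>
    equivShrink (hset γ) ⟨lev a.toOrd.1, mem_hset.2 ⟨a.toOrd.1, a.toOrd.2, rfl⟩⟩) ?_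
  intro a b hab
  have h1 := (equivShrink (hset γ)).injective hab
  have h2 := lev_inj (Subtype.ext_iff.1 h1)
  have h3 : a.toOrd = b.toOrd := Subtype.ext h2
  exact Ordinal.ToType.mk.symm.injective h3

theorem lev_fst {A : ZFSet.{0}} (hA : A.IsTransitive) {y z : ZFSet.{0}} (h : pair y z ∈ A) :
    y ∈ A := by
  have h1 : ({y} : ZFSet.{0}) ∈ A := hA _ h (ZFSet.mem_pair.2 (Or.inl rfl))
  exact hA _ h1 (ZFSet.mem_singleton.2 rfl)

theorem mem_HH_HH (h4 : T_HH) {M N : Type} [Infinite M] [Infinite N]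
    (hg : Good (HH M)) (hMN : Cardinal.mk M < Cardinal.mk N) : HH M ∈ HH N := by
  refine h4.sub N _ ?_ ?_
  · intro x
    induction x using ZFSet.inductionOn with
    | _ x ih =>
    intro hx
    exact h4.sub N x (fun y hy => ih y hy (h4.tr M _ hx hy)) ((h4.card M x hx).trans hMN.le)
  · choose g hg' using fun X : ZFSet.{0} => exists_enum (M := M) X
    set o : Ordinal.{0} := (Order.succ (Cardinal.mk M)).ord with ho
    have hc : (HH M).card ≤ Cardinal.mk (o.ToType × M) := by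
      refine card_le_of (fun q => g (L q.1.toOrd.1) q.2) ?_
      intro x hx
      obtain ⟨γ, β, hβ, hγ, hxβ⟩ := hg.hist x hx
      have h1 : γ.card ≤ Cardinal.mk M := (card_hset γ).trans (h4.card M _ hγ)
      have h2 : β < o := by
        rw [ho, Cardinal.lt_ord]
        exact ((Ordinal.card_le_card hβ.le).trans h1).trans_lt (Order.lt_succ _)
      have h3 : lev β ∈ HH M := h4.tr M _ hγ (mem_hset.2 ⟨β, hβ, rfl⟩)
      have h5 : L β ∈ HH M := lev_fst (h4.tr M) h3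
      obtain ⟨m, hm⟩ := hg' (L β) (h4.card M _ h5) x hxβ
      refine ⟨(Ordinal.ToType.mk ⟨β, h2⟩, m), ?_⟩
      simp only [Ordinal.ToType.toOrd, OrderIso.symm_apply_apply]
      exact hm
    refine hc.trans ?_
    rw [Cardinal.mk_prod, Cardinal.lift_id, Cardinal.lift_id, Cardinal.mk_toType, ho,
      Cardinal.card_ord]
    have h6 : Order.succ (Cardinal.mk M) ≤ Cardinal.mk N := Order.succ_le_of_lt hMN
    exact Cardinal.mul_le_of_le (Cardinal.aleph0_le_mk N) h6 hMN.le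

theorem task (hV : VeqL) (h1 : T_GCOL) (h2 : T_COL) (h3 : T_DCL) (h4 : T_HH) : T_HHV where
  good := fun M _ => good_HH hV h1 h2 h3 h4 M
  mem := fun M N _ _ h => mem_HH_HH h4 (good_HH hV h1 h2 h3 h4 M) h

end Pool.Agent.W928.VL.HHV
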